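import Mathlib

namespace Pool.Agent.Results.MP_cc637b_co.TriangleChain

/-- An oriented simple graph: arc relation with no loops and no pair of opposite arcs. -/
def IsOriented {V : Type} (A : V → V → Prop) : Prop := ∀ u v, A u v → ¬ A v u

/-- A cyclic sequence of `len ≥ 3` distinct vertices. -/
structure Cyc (V : Type) where
  len : ℕ
  three_le : 3 ≤ len
  vert : ZMod len → V
  inj : Function.Injective vert

/-- The unordered pair `{u, v}` is an edge of the cycle `C`. -/
def Cyc.HasEdge {V : Type} (C : Cyc V) (u v : V) : Prop :=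
  ∃ i, s(C.vert i, C.vert (i + 1)) = s(u, v)

/-- `C` is a directed cycle of the digraph with arc relation `A`. -/
def Cyc.IsDirectedIn {V : Type} (C : Cyc V) (A : V → V → Prop) : Prop :=
  ∀ i, A (C.vert i) (C.vert (i + 1))

/-- The digraph obtained from `A` after reversing the cycles `C j`, `j ∈ J`: an edge keeps its
orientation iff it lies on an even number of these cycles. -/
def reversed {V I : Type} (A : V → V → Prop) (C : I → Cyc V) (J : Set I) (u v : V) : Prop :=
  (A u v ∧ Even {j | j ∈ J ∧ (C j).HasEdge u v}.ncard) ∨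
  (A v u ∧ Odd {j | j ∈ J ∧ (C j).HasEdge u v}.ncard)

/-- A reversal sequence of `A`, indexed by the well-ordered set `I`: every pair lies on only
finitely many of the cycles, and each `C i` is a directed cycle of the digraph obtained by
reversing all earlier cycles. -/
def IsReversalSeq {V I : Type} [LinearOrder I] (A : V → V → Prop) (C : I → Cyc V) : Prop :=
  (∀ u v, {j | (C j).HasEdge u v}.Finite) ∧
  ∀ i, (C i).IsDirectedIn (reversed A C {j | j < i})

/-- chain of cyclic triangles `2n → 2n+1 → 2n+2 → 2n`. -/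
def tri (u v : ℕ) : Prop :=
  (u % 2 = 0 ∧ v = u + 1) ∨ (u % 2 = 1 ∧ v = u + 1) ∨ (v % 2 = 0 ∧ u = v + 2)

theorem cross {V : Type} (C : Cyc V) (P : V → Prop) (i : ZMod C.len)
    (h : ¬ (P (C.vert i) ↔ P (C.vert (i + 1)))) :
    ∃ j, s(C.vert j, C.vert (j + 1)) ≠ s(C.vert i, C.vert (i + 1)) ∧
      ¬ (P (C.vert j) ↔ P (C.vert (j + 1))) := by
  have h3 := C.three_le
  by_contra hno
  push Not at hno
  have hne : ∀ j, j ≠ i → s(C.vert j, C.vert (j + 1)) ≠ s(C.vert i, C.vert (i + 1)) := by
    intro j hj he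
    rcases Sym2.eq_iff.mp he with ⟨h1, -⟩ | ⟨h1, h2⟩
    · exact hj (C.inj h1)
    · have e1 := C.inj h1
      have e2 := C.inj h2
      have h2 : ((2 : ℕ) : ZMod C.len) = 0 := by
        push_cast
        linear_combination e2 - e1
      rw [ZMod.natCast_eq_zero_iff] at h2
      have := Nat.le_of_dvd (by norm_num) h2
      omega
  have key : ∀ m : ℕ, m < C.len → (P (C.vert (i + 1)) ↔ P (C.vert (i + 1 + m))) := by
    intro m
    induction m with
    | zero => simp
    | succ m ih =>
      intro hm
      have h1 : i + 1 + (m : ZMod C.len) ≠ i := by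
        intro he
        have h2 : ((m + 1 : ℕ) : ZMod C.len) = 0 := by
          push_cast
          linear_combination he
        rw [ZMod.natCast_eq_zero_iff] at h2
        have := Nat.le_of_dvd (by omega) h2
        omega
      have h2 := hno _ (hne _ h1)
      rw [ih (by omega), h2]
      push_cast
      rw [add_assoc (i + 1)]
  have h4 := key (C.len - 1) (by omega)
  have h5 : i + 1 + ((C.len - 1 : ℕ) : ZMod C.len) = i := by
    rw [Nat.cast_sub (by omega)]
    simp
  rw [h5] at h4
  exact h h4.symm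

theorem tie (C : Cyc ℕ) (hC : ∀ i, tri (C.vert i) (C.vert (i + 1)) ∨ tri (C.vert (i + 1)) (C.vert i))
    (t a b c d : ℕ) (hab : ¬ (a ≤ t ↔ b ≤ t))
    (hcut : ∀ x y, (tri x y ∨ tri y x) → ¬ (x ≤ t ↔ y ≤ t) → s(x, y) = s(a, b) ∨ s(x, y) = s(c, d)) :
    C.HasEdge a b → C.HasEdge c d := by
  rintro ⟨i, hi⟩
  have h1 : ¬ (C.vert i ≤ t ↔ C.vert (i + 1) ≤ t) := by
    rcases Sym2.eq_iff.mp hi with ⟨h1, h2⟩ | ⟨h1, h2⟩
    · rw [h1, h2]; exact hab
    · rw [h1, h2]; exact fun h => hab h.symm
  obtain ⟨j, hj1, hj2⟩ := cross C (fun x => x ≤ t) i h1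
  rcases hcut _ _ (hC j) hj2 with h | h
  · exact absurd (h.trans hi.symm) hj1
  · exact ⟨j, h⟩

theorem hasEdge_comm {V : Type} (C : Cyc V) (u v : V) : C.HasEdge u v ↔ C.HasEdge v u := by
  unfold Cyc.HasEdge
  rw [Sym2.eq_swap (a := u)]

theorem result : ∃ (V : Type) (A : V → V → Prop), Countable V ∧ Infinite V ∧ IsOriented A ∧
    (∀ v, {u | A u v ∨ A v u}.Finite) ∧
    ∀ (I : Type) [LinearOrder I] [WellFoundedLT I] (C : I → Cyc V), IsReversalSeq A C →
      ∀ u v, Relation.ReflTransGen (reversed A C Set.univ) u v := by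
  refine ⟨ℕ, tri, inferInstance, inferInstance, ?_, ?_, ?_⟩
  · intro u v h1 h2
    unfold tri at h1 h2
    omega
  · intro v
    refine (Set.finite_le_nat (v + 2)).subset ?_
    intro u hu
    simp only [tri, Set.mem_ofPred_eq] at hu ⊢
    omega
  · intro I _ _ C hC
    have hund : ∀ i k, tri ((C i).vert k) ((C i).vert (k + 1)) ∨
        tri ((C i).vert (k + 1)) ((C i).vert k) := by
      intro i k
      rcases hC.2 i k with h | h
      · exact Or.inl h.1
      · exact Or.inr h.1
    have t1 : ∀ i n, (C i).HasEdge (2 * n) (2 * n + 1) ↔ (C i).HasEdge (2 * n + 2) (2 * n) := by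
      intro i n
      constructor
      · refine tie _ (hund i) (2 * n) _ _ _ _ (by omega) ?_
        intro x y hxy hc
        simp only [tri, Sym2.eq_iff] at hxy ⊢
        omega
      · refine tie _ (hund i) (2 * n) _ _ _ _ (by omega) ?_
        intro x y hxy hc
        simp only [tri, Sym2.eq_iff] at hxy ⊢
        omega
    have t2 : ∀ i n, (C i).HasEdge (2 * n + 1) (2 * n + 2) ↔
        (C i).HasEdge (2 * n + 2) (2 * n) := by
      intro i n
      constructor
      · refine tie _ (hund i) (2 * n + 1) _ _ _ _ (by omega) ?_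
        intro x y hxy hc
        simp only [tri, Sym2.eq_iff] at hxy ⊢
        omega
      · refine tie _ (hund i) (2 * n + 1) _ _ _ _ (by omega) ?_
        intro x y hxy hc
        simp only [tri, Sym2.eq_iff] at hxy ⊢
        omega
    set R := reversed tri C Set.univ with hR
    have fw : ∀ u v, tri u v → Even {j | j ∈ Set.univ ∧ (C j).HasEdge u v}.ncard → R u v :=
      fun u v h1 h2 => Or.inl ⟨h1, h2⟩
    have bw : ∀ u v, tri u v → Odd {j | j ∈ Set.univ ∧ (C j).HasEdge u v}.ncard → R v u := by
      intro u v h1 h2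
      refine Or.inr ⟨h1, ?_⟩
      simp only [hasEdge_comm _ v u]
      exact h2
    have tr : ∀ n, (R (2 * n) (2 * n + 1) ∧ R (2 * n + 1) (2 * n + 2) ∧ R (2 * n + 2) (2 * n)) ∨
        (R (2 * n + 1) (2 * n) ∧ R (2 * n + 2) (2 * n + 1) ∧ R (2 * n) (2 * n + 2)) := by
      intro n
      have a1 : tri (2 * n) (2 * n + 1) := by unfold tri; omega
      have a2 : tri (2 * n + 1) (2 * n + 2) := by unfold tri; omega
      have a3 : tri (2 * n + 2) (2 * n) := by unfold tri; omega
      rcases Nat.even_or_odd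
        {j | j ∈ Set.univ ∧ (C j).HasEdge (2 * n + 2) (2 * n)}.ncard with h | h
      · left
        refine ⟨fw _ _ a1 ?_, fw _ _ a2 ?_, fw _ _ a3 h⟩
        · simp only [t1]; exact h
        · simp only [t2]; exact h
      · right
        refine ⟨bw _ _ a1 ?_, bw _ _ a2 ?_, bw _ _ a3 h⟩
        · simp only [t1]; exact h
        · simp only [t2]; exact h
    have step : ∀ u, Relation.ReflTransGen R u (u + 1) ∧ Relation.ReflTransGen R (u + 1) u := by
      intro u
      obtain ⟨n, rfl | rfl⟩ := Nat.even_or_odd' u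
      · rcases tr n with ⟨h1, h2, h3⟩ | ⟨h1, h2, h3⟩
        · exact ⟨.single h1, (Relation.ReflTransGen.single h2).tail h3⟩
        · exact ⟨(Relation.ReflTransGen.single h3).tail h2, .single h1⟩
      · rcases tr n with ⟨h1, h2, h3⟩ | ⟨h1, h2, h3⟩
        · exact ⟨.single h2, (Relation.ReflTransGen.single h3).tail h1⟩
        · exact ⟨(Relation.ReflTransGen.single h1).tail h3, .single h2⟩
    have z : ∀ u, Relation.ReflTransGen R 0 u ∧ Relation.ReflTransGen R u 0 := by
      intro u
      induction u with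
      | zero => exact ⟨.refl, .refl⟩
      | succ u ih => exact ⟨ih.1.trans (step u).1, (step u).2.trans ih.2⟩
    intro u v
    exact (z u).2.trans (z v).1

end Pool.Agent.Results.MP_cc637b_co.TriangleChain
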